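import Mathlib
import Pool.Agent.helper32.Path.Hilbert
import Pool.Agent.helper32.Path.Lift
import Pool.Agent.helper32.Path.CK

/-!
# Spaces whose unit sphere and unit ball are uniformly homeomorphic

A large class of infinite-dimensional spaces `X` for which the unit sphere and the closed unit
ball are uniformly homeomorphic.
-/

set_option autoImplicit false

open MeasureTheory Filter Topology
open scoped ZeroAtInfty ENNReal

universe u

namespace Pool.Agent.Results.MP_1eafec_an.SphereBallClass

/-- The smallest class of real normed spaces which contains `c₀`, the infinite-dimensional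
Hilbert spaces, the infinite-dimensional spaces `L_p(μ)` with `1 ≤ p < ∞`, the spaces `C(K)`
where `K` has a nontrivial convergent sequence, and which is closed under: passing to a space
with a uniformly homeomorphic unit sphere (in particular under isomorphisms), forming products
with arbitrary normed spaces, and passing from a closed subspace or a quotient of a uniformly
convex Banach space to the whole space. -/
inductive Good : (X : Type u) → [NormedAddCommGroup X] → [NormedSpace ℝ X] → Prop
  | c0 {X : Type u} [NormedAddCommGroup X] [NormedSpace ℝ X] (e : X ≃ₗᵢ[ℝ] C₀(ℕ, ℝ)) : Good X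
  | hilbert {H : Type u} [NormedAddCommGroup H] [InnerProductSpace ℝ H] [CompleteSpace H]
      (h : ¬ FiniteDimensional ℝ H) : Good H
  | lp {Ω : Type u} [MeasurableSpace Ω] (μ : Measure Ω) (p : ℝ≥0∞) [Fact (1 ≤ p)]
      (hp : p ≠ ∞) (h : ¬ FiniteDimensional ℝ (Lp ℝ p μ)) : Good (Lp ℝ p μ)
  | ck {K : Type u} [TopologicalSpace K] [CompactSpace K] [T2Space K] (s : ℕ → K) (k : K)
      (hs : Tendsto s atTop (𝓝 k)) (hk : ∀ n, s n ≠ k) : Good C(K, ℝ)
  | sphere {U V : Type u} [NormedAddCommGroup U] [NormedSpace ℝ U] [NormedAddCommGroup V]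
      [NormedSpace ℝ V] (h : Good U) (e : Metric.sphere (0 : U) 1 ≃ᵤ Metric.sphere (0 : V) 1) :
      Good V
  | iso {U V : Type u} [NormedAddCommGroup U] [NormedSpace ℝ U] [NormedAddCommGroup V]
      [NormedSpace ℝ V] (h : Good U) (e : U ≃L[ℝ] V) : Good V
  | prod {U V : Type u} [NormedAddCommGroup U] [NormedSpace ℝ U] [NormedAddCommGroup V]
      [NormedSpace ℝ V] (h : Good U) : Good (U × V)
  | sub {X : Type u} [NormedAddCommGroup X] [NormedSpace ℝ X] [CompleteSpace X]
      [UniformConvexSpace X] (M : Submodule ℝ X) [IsClosed (M : Set X)] (h : Good M) : Good X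
  | quot {X : Type u} [NormedAddCommGroup X] [NormedSpace ℝ X] [CompleteSpace X]
      [UniformConvexSpace X] (M : Submodule ℝ X) [IsClosed (M : Set X)] (h : Good (X ⧸ M)) :
      Good X

open Pool.Agent.helper32 in
theorem result {X : Type u} [NormedAddCommGroup X] [NormedSpace ℝ X] (h : Good X) :
    Nonempty (Metric.sphere (0 : X) 1 ≃ᵤ Metric.closedBall (0 : X) 1) := by
  have key : SB X := by
    induction h with
    | c0 e => exact SB_of_iso e.toContinuousLinearEquiv.symm SB_c0
    | hilbert h => exact Path.SB_hilbert h
    | lp μ p hp h => exact Path.SB_Lp hp h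
    | ck s k hs hk => exact SB_CK hs hk
    | @sphere U V _ _ _ _ h e ih =>
      have : Inhabited U := ⟨0⟩
      have : Inhabited V := ⟨0⟩
      exact SB_of_sphere_equiv (UEquivOn.ofUniformEquiv e) ih
    | iso h e ih => exact SB_of_iso e ih
    | prod h ih => exact SB_prod ih
    | sub M h ih => exact SB_of_uniformLift M (uniformLift_of_uniformConvex M) (Or.inl ih)
    | quot M h ih => exact SB_of_uniformLift M (uniformLift_of_uniformConvex M) (Or.inr ih)
  exact key.toUniformEquiv

end Pool.Agent.Results.MP_1eafec_an.SphereBallClass
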